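import Pool.Agent.MP_542436_nt.Sp.Spec

set_option autoImplicit false

namespace Pool.Agent.MP_542436_nt.Sp

open Polynomial

namespace KerC

attribute [local instance] Polynomial.algebra in
lemma bez {S : Type} [CommRing S] [IsDomain S] [IsGCDMonoid S] (I : Ideal S[X])
    (h : ∀ p, (∀ g ∈ I, p ∣ g) → IsUnit p) : ∃ R, R ≠ 0 ∧ C R ∈ I := by
  let : NormalizedGCDMonoid S := Nonempty.some inferInstance
  let K := FractionRing S
  have := Polynomial.isLocalization (nonZeroDivisors S) K
  obtain ⟨p, hp⟩ := (IsPrincipalIdealRing.principal (I.map (algebraMap S[X] K[X]))).principal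
  have d : ∀ g ∈ I, p ∣ g.map (algebraMap S K) := fun g hg =>
    Ideal.mem_span_singleton.1 (hp.le (Ideal.mem_map_of_mem _ hg))
  have p0 : p ≠ 0 := by
    rintro rfl
    refine not_isUnit_zero (h 0 fun g hg => zero_dvd_iff.2 ?_)
    exact (Polynomial.map_eq_zero_iff (IsFractionRing.injective S K)).1 (zero_dvd_iff.1 (d g hg))
  have u : IsUnit p := isUnit_or_eq_zero_of_isUnit_integerNormalization_primPart (R := S) p0
    (h _ fun g hg => (isPrimitive_primPart _).dvd_of_fraction_map_dvd_fraction_map (K := K) (by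
      obtain ⟨c, c0, hc⟩ := IsLocalization.integerNormalization_spec (nonZeroDivisors S) p
      refine ((Polynomial.map_dvd _ (primPart_dvd _)).trans ?_).trans (d g hg)
      rw [hc, Algebra.smul_def, Polynomial.algebraMap_apply]
      exact (IsUnit.mul_left_dvd (isUnit_C.2 (IsLocalization.map_units K ⟨c, c0⟩))).2 dvd_rfl))
  have h1 : algebraMap S[X] K[X] 1 ∈ I.map (algebraMap S[X] K[X]) :=
    hp.ge (Ideal.mem_span_singleton.2 u.dvd)
  obtain ⟨_, ⟨R, hR, rfl⟩, e⟩ := (IsLocalization.algebraMap_mem_map_algebraMap_iff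
    ((nonZeroDivisors S).map (C : S →+* S[X])) K[X] I 1).1 h1
  exact ⟨R, nonZeroDivisors.ne_zero hR, by simpa using e⟩

variable {σ : Type}

lemma mono_top {f : σ → ℤ[X]} (hf : ∀ i, (f i).natDegree ≤ 1) (m : σ → ℕ) (s : Finset σ) :
    (∏ i ∈ s, f i ^ m i).natDegree ≤ ∑ i ∈ s, m i ∧
      (∏ i ∈ s, f i ^ m i).coeff (∑ i ∈ s, m i) = ∏ i ∈ s, (f i).coeff 1 ^ m i := by
  classical
  induction s using Finset.induction_on with
  | empty => simp
  | insert a s ha ih =>
    have h : (f a ^ m a).natDegree ≤ m a := by simpa using natDegree_pow_le_of_le (m a) (hf a)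
    have h2 := coeff_pow_of_natDegree_le (m := m a) (hf a)
    rw [mul_one] at h2
    rw [Finset.prod_insert ha, Finset.prod_insert ha, Finset.sum_insert ha,
      coeff_mul_add_eq_of_natDegree_le h ih.1, h2, ih.2]
    exact ⟨natDegree_mul_le.trans (add_le_add h ih.1), rfl⟩

lemma top {f : σ → ℤ[X]} (hf : ∀ i, (f i).natDegree ≤ 1) (F : MvPolynomial σ ℤ) :
    (MvPolynomial.aeval f F).coeff F.totalDegree = MvPolynomial.eval (fun i => (f i).coeff 1)
      (MvPolynomial.homogeneousComponent F.totalDegree F) := by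
  rw [MvPolynomial.homogeneousComponent_apply, map_sum, Finset.sum_filter, MvPolynomial.aeval_def,
    MvPolynomial.eval₂_eq, finsetSum_coeff]
  refine Finset.sum_congr rfl fun m hm => ?_
  obtain ⟨h1, h2⟩ := mono_top hf m m.support
  rw [Polynomial.algebraMap_apply, coeff_C_mul]
  split_ifs with e
  · rw [← e, Finsupp.degree_apply, h2, MvPolynomial.eval_monomial]
    rfl
  · rw [coeff_eq_zero_of_natDegree_lt
      (h1.trans_lt (lt_of_le_of_ne (MvPolynomial.le_totalDegree hm) e)), mul_zero]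

lemma top_ne {F : MvPolynomial σ ℤ} (h : F ≠ 0) :
    MvPolynomial.homogeneousComponent F.totalDegree F ≠ 0 := by
  obtain ⟨m, hm, e⟩ := Finset.exists_mem_eq_sup F.support (MvPolynomial.support_nonempty.2 h)
    fun s => s.sum fun _ e => e
  intro z
  have := MvPolynomial.coeff_homogeneousComponent F.totalDegree F m
  rw [z, if_pos (by exact e.symm)] at this
  exact MvPolynomial.mem_support_iff.1 hm this.symm

lemma exists_dir (s0 : σ) {H : MvPolynomial σ ℤ} {D : ℕ} (hH : H.IsHomogeneous D) (h0 : H ≠ 0) :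
    ∃ e : σ → ℤ, e s0 = 1 ∧ MvPolynomial.eval e H ≠ 0 := by
  classical
  by_contra! h
  have up : ∀ (R : Type) [CommRing R] (u : σ → R), MvPolynomial.aeval u
      (MvPolynomial.aeval (Function.update MvPolynomial.X s0 (1 : MvPolynomial σ ℤ)) H) =
      MvPolynomial.aeval (Function.update u s0 1) H := fun R _ u => by
    rw [MvPolynomial.comp_aeval_apply]
    congr 2
    funext i
    rcases eq_or_ne i s0 with rfl | e
    · simp
    · simp [e]
  have h1 : MvPolynomial.aeval (Function.update MvPolynomial.X s0 (1 : MvPolynomial σ ℤ)) H = 0 :=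
    MvPolynomial.funext fun e => (up ℤ e).trans (h _ (Function.update_self ..))
  refine h0 (MvPolynomial.map_injective (algebraMap ℤ ℚ) (algebraMap ℤ ℚ).injective_int
    (MvPolynomial.funext_set (fun _ => {0}ᶜ) (fun _ => (Set.finite_singleton _).infinite_compl)
      fun u hu => ?_))
  have u0 : u s0 ≠ 0 := hu s0 trivial
  have h2 := up ℚ fun i => u i / u s0
  rw [h1, map_zero, Function.update_eq_self_iff.2 (div_self u0).symm, MvPolynomial.aeval_def,
    MvPolynomial.eval₂_eq] at h2
  rw [map_zero, map_zero, MvPolynomial.eval_map, MvPolynomial.eval₂_eq, ← mul_zero (u s0 ^ D), h2,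
    Finset.mul_sum]
  refine Finset.sum_congr rfl fun m hm => ?_
  rw [hH.degree_eq_sum_deg_support hm, mul_left_comm, ← Finset.prod_pow_eq_pow_sum,
    ← Finset.prod_mul_distrib]
  simp only [← mul_pow, mul_div_cancel₀ _ u0]

open Classical in
/-- The shear, with the chosen variable outside. -/
noncomputable def shear (s0 : σ) (e : σ → ℤ) :
    MvPolynomial σ ℤ ≃+* (MvPolynomial {s // s ≠ s0} ℤ)[X] :=
  RingEquiv.ofRingHom
    (MvPolynomial.eval₂Hom (Int.castRingHom _) fun s =>
      if h : s = s0 then X else C (MvPolynomial.X (⟨s, h⟩ : {s // s ≠ s0})) + e s • X)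
    (eval₂RingHom (MvPolynomial.eval₂Hom (Int.castRingHom _) fun s =>
      MvPolynomial.X s.1 - e s.1 • MvPolynomial.X s0) (MvPolynomial.X s0))
    (Polynomial.ringHom_ext' (MvPolynomial.ringHom_ext' (RingHom.ext_int _ _) fun s => by
      rw [RingHom.comp_apply, RingHom.comp_apply, coe_eval₂RingHom, eval₂_C,
        MvPolynomial.eval₂Hom_X', map_sub, map_zsmul]
      simp [s.2]) (by simp))
    (MvPolynomial.ringHom_ext' (RingHom.ext_int _ _) fun s => by
      by_cases h : s = s0
      · simp [h]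
      · rw [RingHom.comp_apply, MvPolynomial.eval₂Hom_X', dif_neg h, map_add, map_zsmul]
        simp)

lemma shear_C (s0 : σ) {e : σ → ℤ} (he : e s0 = 1) (R : MvPolynomial {s // s ≠ s0} ℤ) (u : σ → ℤ)
    (y : ℤ) : MvPolynomial.eval (u + y • e) ((shear s0 e).symm (C R)) =
      MvPolynomial.eval u ((shear s0 e).symm (C R)) := by
  refine RingHom.congr_fun (f := (MvPolynomial.eval (u + y • e)).comp
    ((shear s0 e).symm.toRingHom.comp C)) (g := (MvPolynomial.eval u).comp
    ((shear s0 e).symm.toRingHom.comp C)) (MvPolynomial.ringHom_ext' (RingHom.ext_int _ _)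
      fun s => ?_) R
  simp [shear, he]
  ring

end KerC

open KerC in
theorem kerC : KerCStmt := by
  intro σ κ _ _ s0 D0 Ker hK ⟨Ψ, Ψ0, hΨ⟩ hD
  let : NormalizedGCDMonoid (MvPolynomial σ ℤ) := Nonempty.some inferInstance
  obtain ⟨k1, hk1⟩ := Function.ne_iff.1 Ψ0
  obtain ⟨Φ, h1, h2⟩ := Finset.extract_gcd (s := Finset.univ) Ψ ⟨k1, Finset.mem_univ _⟩
  have h3 := h1 k1 (Finset.mem_univ _) ▸ hk1
  have hΦ : Ker Φ := hK _ Φ (left_ne_zero_of_mul h3)
    (by rwa [← funext fun k => h1 k (Finset.mem_univ _)])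
  obtain ⟨k0, h4, h5⟩ : ∃ k, Φ k ≠ 0 ∧ D0 ≤ (Φ k).totalDegree := by
    obtain ⟨k, hk⟩ := hD Φ (Function.ne_iff.2 ⟨k1, right_ne_zero_of_mul h3⟩) hΦ
    by_cases z : Φ k = 0
    · rw [z] at hk
      exact ⟨k1, right_ne_zero_of_mul h3, hk.trans (Nat.zero_le _)⟩
    · exact ⟨k, z, hk⟩
  obtain ⟨e, e1, e2⟩ := exists_dir s0
    (MvPolynomial.homogeneousComponent_isHomogeneous _ (Φ k0)) (top_ne h4)
  obtain ⟨R, R0, hR⟩ := bez (Ideal.span (Set.range fun k => shear s0 e (Φ k))) fun p hp => by
    rw [← MulEquiv.isUnit_map (shear s0 e).symm, isUnit_iff_dvd_one, ← h2]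
    exact Finset.dvd_gcd fun k _ => by
      simpa using _root_.map_dvd (shear s0 e).symm (hp _ (Ideal.subset_span ⟨k, rfl⟩))
  obtain ⟨U, hU⟩ := Ideal.mem_span_range_iff_exists_fun.1 hR
  refine ⟨Φ, fun k => (shear s0 e).symm (U k), (shear s0 e).symm (C R), k0, e, _, _, hΦ, e1, h5, e2,
    by simpa using R0, by simp [← hU], shear_C s0 e1 R, fun u => ?_⟩
  have hf : ∀ i, (C (e i) * X + C (u i)).natDegree ≤ 1 := fun i => natDegree_linear_le
  refine ⟨MvPolynomial.aeval (fun i => C (e i) * X + C (u i)) (Φ k0),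
    by simpa using MvPolynomial.aeval_natDegree_le _ le_rfl _ hf, by simpa only [coeff_add, coeff_C_mul, coeff_X_one, coeff_C_succ, mul_one, add_zero] using top hf (Φ k0),
    fun y => ?_⟩
  refine (MvPolynomial.comp_aeval_apply _ (aeval y) _).trans ?_
  refine congrArg (MvPolynomial.eval · _) (funext fun i => ?_)
  simp
  ring

end Pool.Agent.MP_542436_nt.Sp
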